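import Mathlib

namespace Pool.Agent.Results.MP_44674b_co.Example

open Finset Matrix

section Defs

variable {X : Type} [Fintype X] [DecidableEq X] {d : ℕ}

/-- `R x y` is the index of the relation containing `(x, y)`. -/
def IsScheme (R : X → X → Fin (d + 1)) : Prop :=
  (∀ i, ∃ x y, R x y = i) ∧ (∀ x y, R x y = 0 ↔ x = y) ∧ (∀ x y, R x y = R y x) ∧
    ∃ p : Fin (d + 1) → Fin (d + 1) → Fin (d + 1) → ℕ, ∀ i j x y,
      (univ.filter (fun z => R x z = i ∧ R z y = j)).card = p i j (R x y)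

def A (R : X → X → Fin (d + 1)) (i : Fin (d + 1)) : Matrix X X ℂ :=
  of fun x y => if R x y = i then 1 else 0

/-- The Bose-Mesner algebra. -/
def BM (R : X → X → Fin (d + 1)) : Submodule ℂ (Matrix X X ℂ) :=
  Submodule.span ℂ (Set.range (A R))

def Delta (L M N : Matrix X X ℂ) : X → X → X → ℂ := fun x y z => L x z * M x y * N y z

def Y (L M N : Matrix X X ℂ) : X → X → X → ℂ := fun x y z => ∑ u, L x u * M y u * N z u

def WD (R : X → X → Fin (d + 1)) : Submodule ℂ (X → X → X → ℂ) :=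
  Submodule.span ℂ {t | ∃ L ∈ BM R, ∃ M ∈ BM R, ∃ N ∈ BM R, t = Delta L M N}

def WY (R : X → X → Fin (d + 1)) : Submodule ℂ (X → X → X → ℂ) :=
  Submodule.span ℂ {t | ∃ L ∈ BM R, ∃ M ∈ BM R, ∃ N ∈ BM R, t = Y L M N}

def TriplyRegular (R : X → X → Fin (d + 1)) : Prop :=
  ∃ t : Fin (d + 1) → Fin (d + 1) → Fin (d + 1) → Fin (d + 1) → Fin (d + 1) → Fin (d + 1) → ℕ,
    ∀ i j k x y z, (univ.filter (fun u => R x u = i ∧ R y u = j ∧ R z u = k)).card =
      t i j k (R x y) (R x z) (R y z)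

/-- Some ordering of the `A i` and of the primitive idempotents `E j` gives `P = Q`. -/
def FormallySelfDual (R : X → X → Fin (d + 1)) : Prop :=
  ∃ (σ : Equiv.Perm (Fin (d + 1))) (E : Fin (d + 1) → Matrix X X ℂ)
    (P Q : Matrix (Fin (d + 1)) (Fin (d + 1)) ℂ),
    (∀ i, E i ∈ BM R ∧ E i ≠ 0) ∧ (∀ i j, E i * E j = if i = j then E i else 0) ∧
    ∑ i, E i = 1 ∧ E 0 = (Fintype.card X : ℂ)⁻¹ • of (fun _ _ => 1) ∧
    (∀ i, A R (σ i) = ∑ j, P j i • E j) ∧
    (∀ i, E i = (Fintype.card X : ℂ)⁻¹ • ∑ j, Q j i • A R (σ j)) ∧ P = Q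

lemma tri (R : X → X → Fin (d + 1)) (W : Submodule ℂ (X → X → X → ℂ)) :
    ((∀ i j k, Delta (A R i) (A R j) (A R k) ∈ W) → WD R ≤ W) ∧
      ((∀ i j k, Y (A R i) (A R j) (A R k) ∈ W) → WY R ≤ W) := by
  constructor <;> intro h <;> refine Submodule.span_le.2 ?_ <;>
    rintro _ ⟨L, hL, M, hM, N, hN, rfl⟩ <;>
    obtain ⟨a, rfl⟩ := (Submodule.mem_span_range_iff_exists_fun ℂ).1 hL <;>
    obtain ⟨b, rfl⟩ := (Submodule.mem_span_range_iff_exists_fun ℂ).1 hM <;>
    obtain ⟨c, rfl⟩ := (Submodule.mem_span_range_iff_exists_fun ℂ).1 hN <;>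
    refine SetLike.mem_coe.2 ?_ <;>
    convert W.sum_mem (t := univ) fun k _ => W.sum_mem (t := univ) fun j _ =>
      W.sum_mem (t := univ) fun i _ => W.smul_mem (a i * b j * c k) (h i j k) using 1 <;>
    ext x y z
  · simp only [Delta, Matrix.sum_apply, Matrix.smul_apply, smul_eq_mul, sum_mul, mul_sum,
      Finset.sum_apply, Pi.smul_apply]
    exact sum_congr rfl fun _ _ => sum_congr rfl fun _ _ => sum_congr rfl fun _ _ => by ring
  · simp only [Y, Matrix.sum_apply, Matrix.smul_apply, smul_eq_mul, sum_mul, mul_sum,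
      Finset.sum_apply, Pi.smul_apply]
    rw [sum_comm]
    refine sum_congr rfl fun _ _ => ?_
    rw [sum_comm]
    refine sum_congr rfl fun _ _ => ?_
    rw [sum_comm]
    exact sum_congr rfl fun _ _ => sum_congr rfl fun _ _ => by ring

lemma A_mem (R : X → X → Fin (d + 1)) (i) : A R i ∈ BM R := Submodule.subset_span ⟨i, rfl⟩

lemma Y_eq (R : X → X → Fin (d + 1)) (i j k x y z) : Y (A R i) (A R j) (A R k) x y z =
    (univ.filter (fun u => R x u = i ∧ R y u = j ∧ R z u = k)).card := by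
  simp only [Y, A, of_apply, card_filter, Nat.cast_sum]
  refine sum_congr rfl fun u _ => ?_
  by_cases h1 : R x u = i <;> by_cases h2 : R y u = j <;> by_cases h3 : R z u = k <;> simp [*]

lemma tr_le (R : X → X → Fin (d + 1)) (h : TriplyRegular R) : WY R ≤ WD R := by
  obtain ⟨t, ht⟩ := h
  refine (tri R _).2 fun i j k => ?_
  convert (WD R).sum_mem (t := univ) fun a _ => (WD R).sum_mem (t := univ) fun b _ =>
    (WD R).sum_mem (t := univ) fun c _ => (WD R).smul_mem (t i j k b a c : ℂ)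
      (Submodule.subset_span ⟨_, A_mem R a, _, A_mem R b, _, A_mem R c, rfl⟩) using 1
  ext x y z
  rw [Y_eq, ht]
  simp [Delta, A, Finset.sum_apply, ite_mul, Finset.sum_ite_eq]

end Defs

/-- The scheme of the complete bipartite graph `K₃,₃`. -/
def R (x y : Fin 6) : Fin 3 := if x = y then 0 else if x.1 % 2 = y.1 % 2 then 1 else 2

def cnt (i j k : Fin 3) (x y z : Fin 6) : ℕ :=
  (univ.filter (fun u => R x u = i ∧ R y u = j ∧ R z u = k)).card

lemma treg : TriplyRegular R :=
  ⟨fun i j k a b c => cnt i j k 0 (![0, 2, 1] a)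
    (if b = 0 then 0 else if b = 1 then (if c = 0 then 2 else 4) else if c = 0 then 1 else 3),
    by decide +kernel⟩

def al (i j k : Fin 3) : ℤ := if (i, j, k) ∈ [(0, 0, 0), (0, 1, 1), (0, 2, 2), (1, 0, 1),
  (1, 1, 1), (1, 2, 2), (2, 0, 2), (2, 1, 2), ((2 : Fin 3), (2 : Fin 3), (1 : Fin 3))] then 1 else 0

def be (i j k : Fin 3) : ℤ :=
  if i = j ∧ i ≠ 0 then (if k = 0 then 1 else if k = 1 then -1 else 0) else 0

lemma tab : ∀ i j k x y z, (if R x z = i ∧ R x y = j ∧ R y z = k then (1 : ℤ) else 0) =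
    al i j k * cnt 0 j i x y z + be i j k * cnt i 0 0 x y z := by decide +kernel

lemma dual : WD R ≤ WY R := by
  refine (tri R _).1 fun i j k => ?_
  convert (WY R).add_mem ((WY R).smul_mem (al i j k : ℂ)
      (Submodule.subset_span ⟨_, A_mem R 0, _, A_mem R j, _, A_mem R i, rfl⟩))
    ((WY R).smul_mem (be i j k : ℂ)
      (Submodule.subset_span ⟨_, A_mem R i, _, A_mem R 0, _, A_mem R 0, rfl⟩)) using 1
  ext x y z
  have := congrArg (Int.cast : ℤ → ℂ) (tab i j k x y z)
  simp only [Pi.add_apply, Pi.smul_apply, Y_eq, smul_eq_mul]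
  push_cast at this
  rw [← cnt, ← cnt, ← this]
  by_cases h1 : R x z = i <;> by_cases h2 : R x y = j <;> by_cases h3 : R y z = k <;>
    simp [Delta, A, *]

lemma nsd : ¬FormallySelfDual R := by
  rintro ⟨σ, E, P, Q, -, hE, -, h0, hP, hQ, rfl⟩
  have ent : ∀ i x y, E i x y = 6⁻¹ * P (σ.symm (R x y)) i := by
    intro i x y
    rw [hQ i]
    simp only [Matrix.smul_apply, Matrix.sum_apply, A, of_apply, smul_eq_mul, mul_ite, mul_one,
      mul_zero, ← Equiv.symm_apply_eq, Finset.sum_ite_eq]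
    simp
  have val : ∀ i, P 0 i = ∑ y, A R (σ i) 0 y := by
    intro i
    have : A R (σ i) * E 0 = P 0 i • E 0 := by
      rw [hP i, Finset.sum_mul]
      simp [hE]
    have := congrFun (congrFun this 0) 0
    rw [h0] at this
    simp only [Matrix.mul_apply, Matrix.smul_apply, of_apply, smul_eq_mul, mul_one,
      ← sum_mul] at this
    exact (mul_right_cancel₀ (by simp) this).symm
  have k : ∀ i, ∑ y, A R i 0 y = (i.1 : ℂ) + 1 := by
    intro i
    have : ∀ i : Fin 3, (univ.filter (fun y => R 0 y = i)).card = i.1 + 1 := by decide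
    simp [A, this]
  have s0 : σ.symm 0 = 0 := by
    have c0 : ∀ j, P (σ.symm j) 0 = 1 := by
      intro j
      have := ent 0 0 (![0, 2, 1] j)
      rw [h0, (by decide : ∀ j : Fin 3, R 0 (![0, 2, 1] j) = j)] at this
      simpa using this.symm
    have := c0 (σ 0)
    rw [Equiv.symm_apply_apply, val, k] at this
    have : (σ 0).1 = 0 := by exact_mod_cast (add_eq_right.1 this)
    rw [Equiv.symm_apply_eq]; exact (Fin.ext this).symm
  set i := σ.symm 1
  have i0 : i ≠ 0 := by rw [← s0]; exact σ.symm.injective.ne (by decide)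
  have e0 : P (σ.symm 0) i = 2 := by rw [s0, val, k]; simp [i]; norm_num
  have q := hE i i
  have z := hE i 0
  rw [if_pos rfl] at q
  rw [if_neg i0, h0] at z
  have z0 := congrFun (congrFun z 0) 0
  have q0 := congrFun (congrFun q 0) 0
  have q1 := congrFun (congrFun q 0) 1
  simp only [Matrix.mul_apply, ent, Fin.sum_univ_six] at z0 q0 q1
  simp [R] at z0 q0 q1
  rw [e0] at z0 q0 q1
  set y := P (σ.symm 1) i
  set w := P (σ.symm 2) i
  have hw : w * (2 * y - 1) = 0 := by linear_combination 18 * q1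
  rcases mul_eq_zero.1 hw with h | h
  · have : y = -1 := by linear_combination 18 * z0 - 3 / 2 * h
    rw [h, this] at q0; norm_num at q0
  · have hy : y = 1 / 2 := by linear_combination h / 2
    have : w = -1 := by linear_combination 12 * z0 - h / 3
    rw [hy, this] at q0; norm_num at q0

theorem result : ∃ (X : Type) (_ : Fintype X) (_ : DecidableEq X) (d : ℕ)
    (R : X → X → Fin (d + 1)), Nonempty X ∧ IsScheme R ∧ TriplyRegular R ∧ WY R ≤ WD R ∧
      WD R ≤ WY R ∧ ¬FormallySelfDual R :=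
  ⟨Fin 6, inferInstance, inferInstance, 2, R, inferInstance,
    ⟨by decide, by decide, by decide, fun i j k =>
      (univ.filter (fun z => R 0 z = i ∧ R z (![0, 2, 1] k) = j)).card, by decide +kernel⟩,
    treg, tr_le R treg, dual, nsd⟩

end Pool.Agent.Results.MP_44674b_co.Example
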